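import Pool.Agent.R667.NM.Final

/-!
# MP_86e2e0: a simple separable nonunital C*-algebra with a proper nonmeagre ideal in its multiplier
algebra

Paper proof: helper302. Formalization: helper667 (Part I, assembly), helper297 (path sums),
helper359 (matrix units), helper168 (simplicity), helper207 (limit traces), helper780 (counting).
-/

namespace Pool.Agent.Results.MP_86e2e0_an.ProperNonmeagreIdeal

open scoped MultiplierAlgebra
open Pool.Agent.R667.NM

/-- There are a simple separable nonunital C*-algebra `A` and a closed two-sided ideal `J` of the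
multiplier algebra of `A`, containing `A`, proper and nonmeagre. -/
theorem result : ∃ (A : Type) (_ : NonUnitalCStarAlgebra A),
    TopologicalSpace.SeparableSpace A ∧ (¬ ∃ u : A, ∀ a : A, u * a = a ∧ a * u = a) ∧
    IsSimpleC A ∧
    ∃ J : TwoSidedIdeal 𝓜(ℂ, A), (∀ a : A, (a : 𝓜(ℂ, A)) ∈ J) ∧ J ≠ ⊤ ∧
      IsClosed (J : Set 𝓜(ℂ, A)) ∧ Nonmeagre J :=
  main

end Pool.Agent.Results.MP_86e2e0_an.ProperNonmeagreIdeal
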